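import Pool.Agent.H37.CPX.Targets

/-!
# Row CNS of `cpx_modules`: the test function if the equations in `Js` are satisfied
-/

set_option autoImplicit false

namespace Pool.Agent.H1.CPX

open Finset Pool.Agent.H37.CPX

open Classical in
theorem card_fibre {m : ℕ} (Js J1 : Finset (Fin m)) (w0 : ℕ) (hd : Disjoint J1 Js) :
    ((univ.filter (fun J : Finset (Fin m) => J.card ≤ w0)).filter (fun J => J \ Js = J1)).card =
      cf Js w0 J1.card := by
  unfold cf
  symm
  apply Finset.card_bij (fun J0 _ => J0 ∪ J1)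
  · intro J0 h
    rw [mem_filter, mem_powerset] at h
    obtain ⟨h1, h2⟩ := h
    have hd' : Disjoint J0 J1 := (hd.mono_right h1).symm
    rw [mem_filter, mem_filter]
    refine ⟨⟨mem_univ _, ?_⟩, ?_⟩
    · rw [card_union_of_disjoint hd']
      exact h2
    · rw [union_sdiff_distrib, sdiff_eq_empty_iff_subset.mpr h1, empty_union,
        sdiff_eq_self_of_disjoint hd]
  · intro a ha b hb hab
    rw [mem_filter, mem_powerset] at ha hb
    have e1 : ∀ c : Finset (Fin m), c ⊆ Js → (c ∪ J1) \ J1 = c := by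
      intro c hc
      rw [union_sdiff_right]
      exact sdiff_eq_self_of_disjoint (hd.mono_right hc).symm
    rw [← e1 a ha.1, ← e1 b hb.1, hab]
  · intro J hJ
    rw [mem_filter, mem_filter] at hJ
    obtain ⟨⟨-, h1⟩, h2⟩ := hJ
    have e2 : (J ∩ Js) ∪ J1 = J := by
      rw [← h2, union_comm]
      exact sdiff_union_inter J Js
    have hd' : Disjoint (J ∩ Js) J1 := (hd.mono_right inter_subset_right).symm
    refine ⟨J ∩ Js, ?_, e2⟩
    rw [mem_filter, mem_powerset]
    refine ⟨inter_subset_right, ?_⟩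
    rw [← card_union_of_disjoint hd', e2]
    exact h1

open Classical in
theorem pf_CNS : S_CNS := by
  intro N m k w0 s z Js hJs
  unfold Sy.D
  rw [← Finset.sum_fiberwise_of_maps_to (s := univ.filter (fun J : Finset (Fin m) => J.card ≤ w0))
    (t := univ.filter (fun J1 : Finset (Fin m) => J1.card ≤ w0 ∧ Disjoint J1 Js))
    (g := fun J => J \ Js)]
  · apply Finset.sum_congr rfl
    intro J1 hJ1
    obtain ⟨-, -, hd⟩ := mem_filter.mp hJ1
    rw [← card_fibre Js J1 w0 hd, ← nsmul_eq_mul, ← Finset.sum_const]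
    apply Finset.sum_congr rfl
    intro J hJ
    obtain ⟨-, h2⟩ := mem_filter.mp hJ
    rw [← h2, ← Finset.prod_sdiff (inter_subset_left : J ∩ Js ⊆ J)]
    have e1 : ∏ j ∈ J ∩ Js, s.v j z = 1 :=
      Finset.prod_eq_one fun j hj => hJs j (mem_inter.mp hj).2
    rw [e1, mul_one, sdiff_inter_self_left]
  · intro J hJ
    rw [mem_filter] at hJ ⊢
    exact ⟨mem_univ _, (card_le_card sdiff_subset).trans hJ.2, sdiff_disjoint⟩

end Pool.Agent.H1.CPX
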